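import Mathlib

/-!
# Multithreshold graphs: threshold number and threshold dimension
-/

set_option autoImplicit false

namespace Pool.Agent.V11123.Threshold

/-- `G` is a `k`-threshold graph: there are a set `T` of `k` real thresholds and real ranks `r v`
such that distinct vertices `v`, `w` are adjacent iff the number of thresholds `θ ∈ T` with
`θ ≤ r v + r w` is odd. -/
def IsKThreshold {V : Type*} (k : ℕ) (G : SimpleGraph V) : Prop :=
  ∃ (T : Finset ℝ) (r : V → ℝ), T.card = k ∧
    ∀ v w, v ≠ w → (G.Adj v w ↔ Odd (T.filter fun θ => θ ≤ r v + r w).card)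

/-- The threshold number: the least `k` such that `G` is a `k`-threshold graph. -/
noncomputable def thresholdNumber {V : Type*} (G : SimpleGraph V) : ℕ :=
  sInf {k | IsKThreshold k G}

/-- The threshold dimension: the least `k` such that the edge set of `G` is the union of the edge
sets of `k` threshold graphs (i.e. `1`-threshold graphs) on the same vertex set. -/
noncomputable def thresholdDimension {V : Type*} (G : SimpleGraph V) : ℕ :=
  sInf {k | ∃ H : Fin k → SimpleGraph V, (∀ i, IsKThreshold 1 (H i)) ∧ G = ⨆ i, H i}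

/-! ### Every finite graph is `k`-threshold for some `k` (Jamison–Sprague) -/

lemma exists_isKThreshold {V : Type*} [Finite V] (G : SimpleGraph V) :
    ∃ k, IsKThreshold k G := by
  classical
  have : Fintype V := Fintype.ofFinite V
  obtain ⟨e⟩ : Nonempty (V ≃ Fin (Fintype.card V)) := ⟨Fintype.equivFin V⟩
  let s : V → V → ℕ := fun v w => 2 ^ (e v : ℕ) + 2 ^ (e w : ℕ)
  have hs : ∀ v w v' w', v ≠ w → v' ≠ w' → s v w = s v' w' →
      (v = v' ∧ w = w') ∨ (v = w' ∧ w = v') := by
    intro v w v' w' hvw hvw' h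
    have hne : ∀ {x y : V}, x ≠ y → (e x : ℕ) ≠ (e y : ℕ) := fun hxy h =>
      hxy (e.injective (Fin.ext h))
    have h1 : ∀ {x y : V}, x ≠ y → s x y = ∑ i ∈ ({(e x : ℕ), (e y : ℕ)} : Finset ℕ), 2 ^ i := by
      intro x y hxy
      rw [Finset.sum_pair (hne hxy)]
    rw [h1 hvw, h1 hvw'] at h
    have h2 := Finset.geomSum_injective le_rfl h
    have h3 : (e v : ℕ) ∈ ({(e v' : ℕ), (e w' : ℕ)} : Finset ℕ) := by rw [← h2]; simp
    have h4 : (e w : ℕ) ∈ ({(e v' : ℕ), (e w' : ℕ)} : Finset ℕ) := by rw [← h2]; simp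
    simp only [Finset.mem_insert, Finset.mem_singleton, Fin.val_inj, e.injective.eq_iff] at h3 h4
    rcases h3 with h3 | h3 <;> rcases h4 with h4 | h4
    · exact absurd (h3.trans h4.symm) hvw
    · exact Or.inl ⟨h3, h4⟩
    · exact Or.inr ⟨h3, h4⟩
    · exact absurd (h3.trans h4.symm) hvw
  let S : Finset ℝ := (Finset.univ.filter fun p : V × V => G.Adj p.1 p.2).image
    fun p => (s p.1 p.2 : ℝ)
  have hS : ∀ x ∈ S, ∃ a : ℕ, x = a := by
    intro x hx
    simp only [S, Finset.mem_image] at hx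
    obtain ⟨p, -, hp⟩ := hx
    exact ⟨_, hp.symm⟩
  have hdisj : Disjoint S (S.image fun x => x + 1 / 2) := by
    rw [Finset.disjoint_left]
    intro x hx hx'
    obtain ⟨a, ha⟩ := hS x hx
    obtain ⟨y, hy, hyx⟩ := Finset.mem_image.1 hx'
    obtain ⟨b, hb⟩ := hS y hy
    have : (2 * a : ℝ) = 2 * b + 1 := by rw [← ha, ← hb, ← hyx]; ring
    have : 2 * a = 2 * b + 1 := by exact_mod_cast this
    omega
  refine ⟨_, S ∪ S.image fun x => x + 1 / 2, fun v => (2 : ℝ) ^ (e v : ℕ), rfl, ?_⟩
  intro v w hvw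
  have hx : (2 : ℝ) ^ (e v : ℕ) + 2 ^ (e w : ℕ) = (s v w : ℝ) := by simp [s]
  rw [hx, Finset.filter_union, Finset.card_union_of_disjoint
    (Finset.disjoint_filter_filter hdisj)]
  have hc : ((S.image fun x => x + 1 / 2).filter fun θ => θ ≤ (s v w : ℝ)).card =
      (S.filter fun θ => θ < (s v w : ℝ)).card := by
    rw [Finset.filter_image, Finset.card_image_of_injective _ (add_left_injective _)]
    congr 1
    apply Finset.filter_congr
    intro x hx
    obtain ⟨a, rfl⟩ := hS x hx
    constructor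
    · intro h; linarith
    · intro h
      have h1 : a < s v w := by exact_mod_cast h
      have h2 : (a : ℝ) + 1 ≤ s v w := by exact_mod_cast h1
      linarith
  have hmem : G.Adj v w ↔ (s v w : ℝ) ∈ S := by
    simp only [S, Finset.mem_image, Finset.mem_filter, Finset.mem_univ, true_and, Prod.exists]
    constructor
    · intro h
      exact ⟨v, w, h, rfl⟩
    · rintro ⟨a, b, hab, h⟩
      rcases hs _ _ _ _ hab.ne hvw (by exact_mod_cast h) with ⟨h1, h2⟩ | ⟨h1, h2⟩
      · rwa [← h1, ← h2]
      · rw [← h1, ← h2]; exact hab.symm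
  rw [hc]
  by_cases hm : (s v w : ℝ) ∈ S
  · have : (S.filter fun θ => θ ≤ (s v w : ℝ)) =
        insert (s v w : ℝ) (S.filter fun θ => θ < (s v w : ℝ)) := by
      ext x
      simp only [Finset.mem_filter, Finset.mem_insert]
      constructor
      · rintro ⟨h1, h2⟩
        rcases h2.lt_or_eq with h2 | h2
        · exact Or.inr ⟨h1, h2⟩
        · exact Or.inl h2
      · rintro (h | ⟨h1, h2⟩)
        · rw [h]; exact ⟨hm, le_rfl⟩
        · exact ⟨h1, h2.le⟩
    rw [this, Finset.card_insert_of_notMem (by simp)]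
    simp only [hmem, hm, true_iff]
    exact ⟨(S.filter fun θ => θ < (s v w : ℝ)).card, by ring⟩
  · have : (S.filter fun θ => θ ≤ (s v w : ℝ)) = (S.filter fun θ => θ < (s v w : ℝ)) := by
      apply Finset.filter_congr
      intro x hx
      constructor
      · intro h
        exact lt_of_le_of_ne h (fun h' => hm (h' ▸ hx))
      · exact le_of_lt
    rw [this]
    simp only [hmem, hm, false_iff, Nat.not_odd_iff_even]
    exact ⟨_, rfl⟩

/-- Passing to the complement costs at most one threshold. -/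
lemma IsKThreshold.compl {V : Type*} [Finite V] {k : ℕ} {G : SimpleGraph V}
    (h : IsKThreshold k G) : IsKThreshold (k + 1) Gᶜ := by
  classical
  have : Fintype V := Fintype.ofFinite V
  obtain ⟨T, r, hT, hadj⟩ := h
  obtain ⟨m, hm⟩ := (T ∪ (Finset.univ : Finset (V × V)).image
    fun p => r p.1 + r p.2).finite_toSet.bddBelow
  have hm' : ∀ x ∈ T, m ≤ x := fun x hx => hm (by simp [hx])
  have hm'' : ∀ v w, m ≤ r v + r w := fun v w => hm (by
    simp only [Finset.coe_union, Finset.coe_image, Finset.coe_univ, Set.image_univ,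
      Set.mem_union, Set.mem_range, Prod.exists]
    exact Or.inr ⟨v, w, rfl⟩)
  have hnot : m - 1 ∉ T := fun h => by linarith [hm' _ h]
  refine ⟨insert (m - 1) T, r, by rw [Finset.card_insert_of_notMem hnot, hT], ?_⟩
  intro v w hvw
  rw [Finset.filter_insert, if_pos (by linarith [hm'' v w]),
    Finset.card_insert_of_notMem (by simp [hnot]), SimpleGraph.compl_adj, hadj v w hvw,
    Nat.odd_add_one]
  simp [hvw]

/-- If `G` is `k`-threshold then it is `(k+1)`-threshold. -/
lemma IsKThreshold.succ {V : Type*} [Finite V] {k : ℕ} {G : SimpleGraph V}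
    (h : IsKThreshold k G) : IsKThreshold (k + 1) G := by
  classical
  have : Fintype V := Fintype.ofFinite V
  obtain ⟨T, r, hT, hadj⟩ := h
  obtain ⟨m, hm⟩ := (T ∪ (Finset.univ : Finset (V × V)).image
    fun p => r p.1 + r p.2).finite_toSet.bddAbove
  have hm' : ∀ x ∈ T, x ≤ m := fun x hx => hm (by simp [hx])
  have hm'' : ∀ v w, r v + r w ≤ m := fun v w => hm (by
    simp only [Finset.coe_union, Finset.coe_image, Finset.coe_univ, Set.image_univ,
      Set.mem_union, Set.mem_range, Prod.exists]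
    exact Or.inr ⟨v, w, rfl⟩)
  have hnot : m + 1 ∉ T := fun h => by linarith [hm' _ h]
  refine ⟨insert (m + 1) T, r, by rw [Finset.card_insert_of_notMem hnot, hT], ?_⟩
  intro v w hvw
  rw [Finset.filter_insert, if_neg (by linarith [hm'' v w])]
  exact hadj v w hvw

lemma IsKThreshold.mono {V : Type*} [Finite V] {k l : ℕ} {G : SimpleGraph V}
    (h : IsKThreshold k G) (hkl : k ≤ l) : IsKThreshold l G := by
  induction l, hkl using Nat.le_induction with
  | base => exact h
  | succ n _ ih => exact ih.succ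

lemma thresholdNumber_spec {V : Type*} [Finite V] (G : SimpleGraph V) :
    IsKThreshold (thresholdNumber G) G :=
  Nat.sInf_mem (s := {k | IsKThreshold k G}) (exists_isKThreshold G)

/-! ### The example -/

/-- First coordinate of the example. -/
def al (p : ℕ) : Fin (2 * p) ⊕ (Fin p × Fin p) → ℤ
  | .inl j => (j : ℤ) + 1
  | .inr q => -((q.1 : ℤ) + 1)

/-- Second coordinate of the example. -/
def be (p : ℕ) : Fin (2 * p) ⊕ (Fin p × Fin p) → ℤ
  | .inl j => -((j : ℤ) + 1)
  | .inr q => (p : ℤ) + (q.2 : ℤ) + 1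

/-- The example: a convex bipartite graph; the vertex `inr (s, t)` is adjacent exactly to the
`inl j` with `s ≤ j ≤ p + t`. -/
def ex (p : ℕ) : SimpleGraph (Fin (2 * p) ⊕ (Fin p × Fin p)) where
  Adj u v := u ≠ v ∧ 0 ≤ al p u + al p v ∧ 0 ≤ be p u + be p v
  symm := ⟨fun u v h => ⟨h.1.symm, by rw [add_comm]; exact h.2.1, by rw [add_comm]; exact h.2.2⟩⟩
  loopless := ⟨fun _ h => h.1 rfl⟩

lemma ex_adj (p : ℕ) (j : Fin (2 * p)) (q : Fin p × Fin p) :
    (ex p).Adj (.inl j) (.inr q) ↔ (q.1 : ℕ) ≤ j ∧ (j : ℕ) ≤ p + q.2 := by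
  simp only [ex, al, be, ne_eq, reduceCtorEq, not_false_eq_true, true_and]
  omega

/-- A `k`-threshold graph has few traces. -/
lemma ex_bound (p k : ℕ) (h : IsKThreshold k (ex p)) : p * p ≤ k * (2 * p) + 1 := by
  classical
  obtain ⟨T, r, hT, hadj⟩ := h
  let cnt : Fin (2 * p) → ℝ → ℕ := fun j b => (T.filter fun θ => θ ≤ r (.inl j) + b).card
  have hcnt : ∀ j, Monotone (cnt j) := by
    intro j b b' hb
    refine Finset.card_le_card ?_
    intro θ hθ
    simp only [Finset.mem_filter] at hθ ⊢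
    exact ⟨hθ.1, by linarith [hθ.2]⟩
  have hle : ∀ j b, cnt j b ≤ k := fun j b => by
    rw [← hT]; exact Finset.card_filter_le _ _
  let g : Fin p × Fin p → ℕ := fun q => ∑ j, cnt j (r (.inr q))
  have hg : ∀ q, g q ∈ Finset.range (k * (2 * p) + 1) := by
    intro q
    rw [Finset.mem_range, Nat.lt_succ_iff]
    calc g q ≤ ∑ _j : Fin (2 * p), k := Finset.sum_le_sum fun j _ => hle j _
      _ = k * (2 * p) := by simp [mul_comm]
  have key : ∀ q q' : Fin p × Fin p, r (.inr q) ≤ r (.inr q') → g q = g q' → q = q' := by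
    intro q q' hr hgq
    have h1 : ∀ j, cnt j (r (.inr q)) = cnt j (r (.inr q')) := by
      have := (Finset.sum_eq_sum_iff_of_le (fun j _ => hcnt j hr)).1 hgq
      exact fun j => this j (Finset.mem_univ _)
    have h2 : ∀ j, (ex p).Adj (.inl j) (.inr q) ↔ (ex p).Adj (.inl j) (.inr q') := by
      intro j
      rw [hadj _ _ (by simp), hadj _ _ (by simp)]
      exact iff_of_eq (congrArg Odd (h1 j))
    simp only [ex_adj] at h2
    obtain ⟨s, t⟩ := q
    obtain ⟨s', t'⟩ := q'
    have hs := s.2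
    have ht := t.2
    have hs' := s'.2
    have ht' := t'.2
    have e1 := h2 ⟨s, by omega⟩
    have e2 := h2 ⟨s', by omega⟩
    have e3 := h2 ⟨p + t, by omega⟩
    have e4 := h2 ⟨p + t', by omega⟩
    simp only at e1 e2 e3 e4
    ext
    · simp only; omega
    · simp only; omega
  have hinj : Set.InjOn g (Finset.univ : Finset (Fin p × Fin p)) := by
    intro q _ q' _ hgq
    rcases le_total (r (.inr q)) (r (.inr q')) with h | h
    · exact key _ _ h hgq
    · exact (key _ _ h hgq.symm).symm
  have := Finset.card_le_card_of_injOn g (fun q _ => hg q) hinj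
  simpa using this

lemma isKThreshold_one {V : Type*} (G : SimpleGraph V) (f : V → ℤ)
    (h : ∀ v w, v ≠ w → (G.Adj v w ↔ f v + f w < 0)) : IsKThreshold 1 G := by
  refine ⟨{1}, fun v => -(f v : ℝ), by simp, fun v w hvw => ?_⟩
  rw [h v w hvw, Finset.filter_singleton]
  have : (1 : ℝ) ≤ -(f v : ℝ) + -(f w : ℝ) ↔ f v + f w < 0 := by
    constructor
    · intro h
      have : ((f v + f w : ℤ) : ℝ) ≤ ((-1 : ℤ) : ℝ) := by push_cast; linarith
      have := Int.cast_le.1 this
      omega
    · intro h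
      have : f v + f w ≤ -1 := by omega
      have : ((f v + f w : ℤ) : ℝ) ≤ ((-1 : ℤ) : ℝ) := Int.cast_le.2 this
      push_cast at this
      linarith
  split_ifs with h1
  · simp [this.1 h1]
  · simp only [Finset.card_empty, Nat.not_odd_zero, iff_false]
    exact fun h2 => h1 (this.2 h2)

/-- The complement of the example is a union of two threshold graphs. -/
lemma ex_compl_mem (p : ℕ) : ∃ H : Fin 2 → SimpleGraph (Fin (2 * p) ⊕ (Fin p × Fin p)),
    (∀ i, IsKThreshold 1 (H i)) ∧ (ex p)ᶜ = ⨆ i, H i := by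
  let H0 : (Fin (2 * p) ⊕ (Fin p × Fin p) → ℤ) → SimpleGraph (Fin (2 * p) ⊕ (Fin p × Fin p)) :=
    fun f => { Adj := fun u v => u ≠ v ∧ f u + f v < 0
               symm := ⟨fun u v h => ⟨h.1.symm, by rw [add_comm]; exact h.2⟩⟩
               loopless := ⟨fun _ h => h.1 rfl⟩ }
  have hH0 : ∀ f, IsKThreshold 1 (H0 f) := fun f =>
    isKThreshold_one (H0 f) f (fun v w hvw => ⟨fun h => h.2, fun h => ⟨hvw, h⟩⟩)
  refine ⟨![H0 (al p), H0 (be p)], ?_, ?_⟩
  · intro i
    fin_cases i
    · exact hH0 _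
    · exact hH0 _
  · ext u v
    simp only [SimpleGraph.compl_adj, SimpleGraph.iSup_adj, Fin.exists_fin_two,
      Matrix.cons_val_zero, Matrix.cons_val_one, H0, ex]
    by_cases huv : u = v
    · simp [huv]
    · simp only [ne_eq, huv, not_false_eq_true, true_and]
      constructor
      · intro h
        by_contra hc
        push Not at hc
        exact h ⟨hc.1, hc.2⟩
      · rintro (h | h) ⟨h1, h2⟩ <;> omega

lemma isKThreshold_top {V : Type*} [Finite V] : IsKThreshold 1 (⊤ : SimpleGraph V) := by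
  have : IsKThreshold 0 (⊥ : SimpleGraph V) := ⟨∅, fun _ => 0, by simp, by simp⟩
  simpa using this.compl

/-- If `G` needs more than two thresholds, then its complement has threshold dimension at least
two. -/
lemma two_le_of_not {V : Type*} [Finite V] (G : SimpleGraph V) (h : ¬ IsKThreshold 2 G) (k : ℕ)
    (hk : ∃ H : Fin k → SimpleGraph V, (∀ i, IsKThreshold 1 (H i)) ∧ Gᶜ = ⨆ i, H i) : 2 ≤ k := by
  obtain ⟨H, hH, hG⟩ := hk
  by_contra hlt
  have hk : k = 0 ∨ k = 1 := by omega
  rcases hk with rfl | rfl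
  · have h1 : Gᶜ = ⊥ := by rw [hG]; exact iSup_of_empty H
    have h2 : G = ⊤ := by rw [← compl_compl G, h1]; exact compl_bot
    exact h (by rw [h2]; exact isKThreshold_top.succ)
  · have h1 : Gᶜ = H 0 := by
      rw [hG]
      exact le_antisymm (iSup_le fun i => by rw [Subsingleton.elim i 0]) (le_iSup H 0)
    exact h (by rw [← compl_compl G, h1]; exact (hH 0).compl)

/-- The complement of the example has threshold dimension exactly two. -/
lemma ex_dim (p : ℕ) (h : ¬ IsKThreshold 2 (ex p)) : thresholdDimension (ex p)ᶜ = 2 := by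
  refine le_antisymm (Nat.sInf_le (ex_compl_mem p)) ?_
  exact le_csInf ⟨2, ex_compl_mem p⟩ (fun k hk => two_le_of_not _ h k hk)

lemma ex_not (C k : ℕ) (hk : k ≤ C) : ¬ IsKThreshold k (ex (2 * C + 2)) := by
  intro h
  have h1 := ex_bound _ _ (h.mono hk)
  nlinarith

end Pool.Agent.V11123.Threshold
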